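import Pool.Agent.N929.EZ.Stm2
import Pool.Agent.N929.EY.MI

/-!
# Project EZ, BIJ: filling slots
-/

set_option autoImplicit false

namespace Pool.Agent.N717.EZ

open Pool.Agent.H976R2 Pool.Agent.H976R2.Dir Finset
open Pool.Agent.N929.EX Pool.Agent.N929.EY Pool.Agent.N929.EZ
open scoped Classical

noncomputable section

/-- the lexicographic order -/
def Lt (x q : ℤ × ℤ) : Prop := x.1 < q.1 ∨ (x.1 = q.1 ∧ x.2 < q.2)

theorem ex_mx (U : Finset (ℤ × ℤ)) (h : U.Nonempty) : ∃ q ∈ U, ∀ x ∈ U, x ≠ q → Lt x q := by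
  obtain ⟨q, hq, h1⟩ := exists_max_image U (fun x => toLex x) h
  refine ⟨q, hq, fun x hx hxq => ?_⟩
  have h2 := h1 x hx
  rw [Prod.Lex.toLex_le_toLex] at h2
  rcases h2 with h2 | ⟨h2, h3⟩
  · exact Or.inl h2
  · right
    refine ⟨h2, lt_of_le_of_ne h3 fun h4 => hxq (Prod.ext h2 h4)⟩

/-- the largest element -/
def mx (U : Finset (ℤ × ℤ)) : ℤ × ℤ := if h : U.Nonempty then (ex_mx U h).choose else 0

theorem mx_mem {U : Finset (ℤ × ℤ)} (h : U.Nonempty) : mx U ∈ U := by
  unfold mx
  rw [dif_pos h]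
  exact (ex_mx U h).choose_spec.1

theorem mx_lt {U : Finset (ℤ × ℤ)} (h : U.Nonempty) {x : ℤ × ℤ} (hx : x ∈ U) (hne : x ≠ mx U) :
    Lt x (mx U) := by
  unfold mx at hne ⊢
  rw [dif_pos h] at hne ⊢
  exact (ex_mx U h).choose_spec.2 x hx hne

theorem mx_insert {U : Finset (ℤ × ℤ)} {q : ℤ × ℤ} (h : ∀ x ∈ U, Lt x q) :
    mx (insert q U) = q := by
  by_contra hne
  have hn : (insert q U).Nonempty := ⟨q, mem_insert_self q U⟩
  have h1 := mx_mem hn
  rw [mem_insert] at h1
  have h2 := h _ (h1.resolve_left hne)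
  have h3 := mx_lt hn (mem_insert_self q U) (Ne.symm hne)
  unfold Lt at h2 h3
  omega

section rec

variable (L : Finset (ℤ × ℤ)) (a l : ℕ) (f g : List Dir → (ℤ × ℤ) → List Dir)

/-- filling the slots in increasing order -/
def fln : ℕ → List Dir → Finset (ℤ × ℤ) → List Dir
  | 0, w, _ => w
  | k + 1, w, U => f (fln k w (U.erase (mx U))) (mx U)

/-- filling the slots in increasing order -/
def fl (w : List Dir) (U : Finset (ℤ × ℤ)) : List Dir := fln f U.card w U

/-- freeing the slots in decreasing order -/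
def stn : ℕ → List Dir → List Dir
  | 0, w => w
  | k + 1, w => stn k (g w (mx (Oc L a l w)))

/-- freeing the slots in decreasing order -/
def st (w : List Dir) : List Dir := stn L a l g (Oc L a l w).card w

theorem fl_empty (w : List Dir) : fl f w ∅ = w := rfl

theorem fl_succ (w : List Dir) {U : Finset (ℤ × ℤ)} (h : U.Nonempty) :
    fl f w U = f (fl f w (U.erase (mx U))) (mx U) := by
  unfold fl
  have h1 : U.card = (U.erase (mx U)).card + 1 := (card_erase_add_one (mx_mem h)).symm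
  conv_lhs => rw [h1]
  rfl

theorem fl_ins (w : List Dir) {U : Finset (ℤ × ℤ)} {q : ℤ × ℤ} (hq : q ∉ U)
    (h : ∀ x ∈ U, Lt x q) : fl f w (insert q U) = f (fl f w U) q := by
  rw [fl_succ f w ⟨q, mem_insert_self q U⟩, mx_insert h, erase_insert hq]

theorem st_zero {w : List Dir} (h : Oc L a l w = ∅) : st L a l g w = w := by
  unfold st
  rw [h]
  rfl

/-- valid walks -/
def Va (w : List Dir) : Prop := a + l ≤ w.length ∧ w ∈ SW w.length

/-- one slot is occupied -/
structure S1 (w : List Dir) (p : ℤ × ℤ) (w' : List Dir) : Prop where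
  va : Va a l w
  va' : Va a l w'
  len : w'.length = w.length + 2
  sl : Sl L a l w' = Sl L a l w
  mem : p ∈ Sl L a l w
  nm : p ∉ Oc L a l w
  os : Oc L a l w' = insert p (Oc L a l w)
  fw : f w p = w'
  gw : g w' p = w
  bp : ∃ k, a < k ∧ k + 1 + l < w.length ∧ Bp w.length k w p w'

/-- the properties of the toggles -/
structure Tog : Prop where
  hf : ∀ w p, Va a l w → p ∈ Sl L a l w → p ∉ Oc L a l w → S1 L a l f g w p (f w p)
  hg : ∀ w p, Va a l w → p ∈ Oc L a l w → S1 L a l f g (g w p) p w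

variable {L a l f g}

theorem S1.oc {w w' : List Dir} {p : ℤ × ℤ} (h : S1 L a l f g w p w') :
    Oc L a l w = (Oc L a l w').erase p := by
  rw [h.os, erase_insert h.nm]

theorem st_succ (hT : Tog L a l f g) {w : List Dir} (hw : Va a l w)
    (h : (Oc L a l w).Nonempty) :
    st L a l g w = st L a l g (g w (mx (Oc L a l w))) := by
  have h1 := hT.hg w _ hw (mx_mem h)
  unfold st
  have h2 : (Oc L a l w).card = (Oc L a l (g w (mx (Oc L a l w)))).card + 1 := by
    rw [h1.oc]
    exact (card_erase_add_one (mx_mem h)).symm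
  conv_lhs => rw [h2]
  rfl

/-- filling -/
theorem fill (hT : Tog L a l f g) {w : List Dir} (hw : Va a l w) (he : Oc L a l w = ∅) :
    ∀ (n : ℕ) (U : Finset (ℤ × ℤ)), U.card = n → U ⊆ Sl L a l w →
      Va a l (fl f w U) ∧ (fl f w U).length = w.length + 2 * U.card ∧
      Sl L a l (fl f w U) = Sl L a l w ∧ Oc L a l (fl f w U) = U ∧
      st L a l g (fl f w U) = w := by
  intro n
  induction n with
  | zero =>
    intro U hU _
    rw [card_eq_zero.1 hU, fl_empty]
    exact ⟨hw, by simp, rfl, he, st_zero L a l g he⟩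
  | succ n ih =>
    intro U hU hUS
    have hn : U.Nonempty := by
      rw [← card_pos]; omega
    have hc := card_erase_add_one (mx_mem hn)
    obtain ⟨i1, i2, i3, i4, i5⟩ := ih (U.erase (mx U)) (by omega)
      ((erase_subset _ _).trans hUS)
    have h1 := hT.hf (fl f w (U.erase (mx U))) (mx U) i1
      (by rw [i3]; exact hUS (mx_mem hn)) (by rw [i4]; exact notMem_erase _ _)
    rw [← fl_succ f w hn] at h1
    have hoc : Oc L a l (fl f w U) = U := by
      rw [h1.os, i4, insert_erase (mx_mem hn)]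
    refine ⟨h1.va', ?_, ?_, hoc, ?_⟩
    · rw [h1.len, i2]; omega
    · rw [h1.sl, i3]
    · rw [st_succ hT h1.va' (by rw [hoc]; exact hn), hoc, h1.gw, i5]

/-- freeing -/
theorem free (hT : Tog L a l f g) : ∀ (n : ℕ) (w : List Dir), Va a l w →
    (Oc L a l w).card = n → Em L a l (st L a l g w) ∧
      (st L a l g w).length + 2 * (Oc L a l w).card = w.length ∧
      Sl L a l (st L a l g w) = Sl L a l w ∧ fl f (st L a l g w) (Oc L a l w) = w := by
  intro n
  induction n with
  | zero =>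
    intro w hw hc
    have he := card_eq_zero.1 hc
    rw [st_zero L a l g he, he, fl_empty]
    exact ⟨⟨hw.1, hw.2, he⟩, by simp, rfl, rfl⟩
  | succ n ih =>
    intro w hw hc
    have hn : (Oc L a l w).Nonempty := by
      rw [← card_pos]; omega
    have h1 := hT.hg w _ hw (mx_mem hn)
    have hcc : (Oc L a l (g w (mx (Oc L a l w)))).card + 1 = (Oc L a l w).card := by
      rw [h1.oc]; exact card_erase_add_one (mx_mem hn)
    obtain ⟨i1, i2, i3, i4⟩ := ih (g w (mx (Oc L a l w))) h1.va (by omega)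
    rw [st_succ hT hw hn]
    refine ⟨i1, ?_, ?_, ?_⟩
    · have := h1.len
      omega
    · rw [i3, h1.sl]
    · rw [fl_succ f _ hn, ← h1.oc, i4, h1.fw]

end rec

/-- BIJ -/
theorem bij (h : S_WT3) : S_BIJ := by
  intro L hL a l
  obtain ⟨f, g, hf, hg⟩ := h L hL
  have hT : Tog L a l f g := by
    refine ⟨fun w p hw hp hq => ?_, fun w' p hw hp => ?_⟩
    · have hle : a ≤ w.length - l := by have := hw.1; omega
      obtain ⟨h1, ⟨k, hk1, hk2, hk3⟩, h2⟩ := hf a (w.length - l) w.length w p hle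
        (Nat.sub_le _ _) hw.2 hp hq
      have hlen : (f w p).length = w.length + 2 := (mem_SW.1 h1.sw').1
      have hb : (f w p).length - l = w.length - l + 2 := by
        have := hw.1; omega
      have hSl : Sl L a l (f w p) = Sl L a l w := by
        unfold Sl; rw [hb]; exact h1.dd
      have hOc : Oc L a l (f w p) = insert p (Oc L a l w) := by
        unfold Oc; rw [hb]; exact h1.os
      exact ⟨hw, ⟨by rw [hlen]; have := hw.1; omega, by rw [hlen]; exact h1.sw'⟩, hlen, hSl, hp,
        hq, hOc, rfl, h2, k, hk1, by omega, hk3⟩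
    · have hwl := win_len hL (n := w'.length) (a := a) (b := w'.length - l)
        (by have := hw.1; omega) (Nat.sub_le _ _) hw.2
      have hpos : 0 < (Oc L a l w').card := card_pos.2 ⟨p, hp⟩
      have hpos' : 0 < (OO L 1 (a, w'.length - l) w').card := hpos
      obtain ⟨n, hn⟩ : ∃ n, w'.length = n + 2 := ⟨w'.length - 2, by omega⟩
      have hb : w'.length - l = n - l + 2 := by
        have := hw.1; omega
      have hsw : w' ∈ SW (n + 2) := by rw [← hn]; exact hw.2
      obtain ⟨h1, ⟨k, hk1, hk2, hk3⟩, h2⟩ := hg a (n - l) n w' p (by omega) (Nat.sub_le _ _)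
        hsw (by rw [← hb]; exact hp)
      have hlen : (g w' p).length = n := (mem_SW.1 h1.sw).1
      have hSl : Sl L a l w' = Sl L a l (g w' p) := by
        unfold Sl; rw [hb, hlen]; exact h1.dd
      have hOc : Oc L a l w' = insert p (Oc L a l (g w' p)) := by
        unfold Oc; rw [hb, hlen]; exact h1.os
      refine ⟨⟨by rw [hlen]; omega, by rw [hlen]; exact h1.sw⟩, hw, by rw [hlen, hn], hSl, ?_, ?_,
        hOc, h2, rfl, k, hk1, by rw [hlen]; omega, by rw [hlen]; exact hk3⟩
      · unfold Sl; rw [hlen]; exact h1.mem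
      · unfold Oc; rw [hlen]; exact h1.nm
  have hva : ∀ w, Em L a l w → Va a l w := fun w h => ⟨h.1, h.2.1⟩
  refine ⟨st L a l g, fl f, ?_⟩
  refine
    { len := ?_
      st_em := fun w h1 h2 => (free hT _ w ⟨h1, h2⟩ rfl).1
      st_len := fun w h1 h2 => (free hT _ w ⟨h1, h2⟩ rfl).2.1
      st_sl := fun w h1 h2 => (free hT _ w ⟨h1, h2⟩ rfl).2.2.1
      fl_st := fun w h1 h2 => (free hT _ w ⟨h1, h2⟩ rfl).2.2.2
      fl_sw := ?_
      fl_len := fun w U h1 h2 => (fill hT (hva w h1) h1.2.2 _ U rfl h2).2.1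
      fl_sl := fun w U h1 h2 => (fill hT (hva w h1) h1.2.2 _ U rfl h2).2.2.1
      fl_oc := fun w U h1 h2 => (fill hT (hva w h1) h1.2.2 _ U rfl h2).2.2.2.1
      st_fl := fun w U h1 h2 => (fill hT (hva w h1) h1.2.2 _ U rfl h2).2.2.2.2
      fl_empty := fun w _ => fl_empty f w
      fl_insert := ?_ }
  · intro w h1 h2
    have h3 := win_len hL (n := w.length) (a := a) (b := w.length - l)
      (by omega) (Nat.sub_le _ _) h2
    have h4 : 2 * (Oc L a l w).card ≤ w.length - l - a := h3
    omega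
  · intro w U h1 h2
    obtain ⟨i1, i2, -⟩ := fill hT (hva w h1) h1.2.2 _ U rfl h2
    rw [← i2]
    exact i1.2
  · intro w U q h1 h2 h3 h4 h5
    obtain ⟨i1, i2, i3, i4, -⟩ := fill hT (hva w h1) h1.2.2 _ U rfl h2
    have h6 := hT.hf (fl f w U) q i1 (by rw [i3]; exact h3) (by rw [i4]; exact h4)
    obtain ⟨k, hk1, hk2, hk3⟩ := h6.bp
    rw [i2] at hk2 hk3
    refine ⟨k, hk1, hk2, ?_⟩
    rw [fl_ins f w h4 h5]
    exact hk3

end

end Pool.Agent.N717.EZ
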